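import Pool.Agent.Q193.PR.Poly

/-!
# A function which is positive somewhere is detected by one of the limit functions
-/

set_option autoImplicit false

namespace Pool.Agent.Q193.PR.Det

open MeasureTheory Set Filter Topology
open scoped ENNReal Polynomial
open Pool.Agent.Q240.PR
open Pool.Agent.H24R2.JP (XX)

/-! ### smooth functions and their transforms -/

theorem Sm.cont {h : ℝ} {χ : ℝ → ℂ} (H : Sm h χ) : Continuous χ := (H.1 0).continuous

theorem Sm.cpt {h : ℝ} {χ : ℝ → ℂ} (H : Sm h χ) : HasCompactSupport χ := by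
  refine HasCompactSupport.intro (isCompact_Icc (a := -h) (b := h)) fun x hx => H.2 x ?_
  rw [mem_Icc, ← abs_le, not_le] at hx
  exact hx.le

theorem Sm.int_mul {h : ℝ} {χ : ℝ → ℂ} (H : Sm h χ) {g : ℝ → ℂ} (hg : Continuous g) :
    Integrable fun x => χ x * g x :=
  ((Sm.cont H).mul hg).integrable_of_hasCompactSupport (Sm.cpt H).mul_right

theorem Sm.diff {h : ℝ} {χ : ℝ → ℂ} (H : Sm h χ) : Differentiable ℝ χ :=
  (H.1 1).differentiable (by norm_num)

theorem Sm.deriv {h : ℝ} {χ : ℝ → ℂ} (H : Sm h χ) : Sm h fun x => Complex.I * deriv χ x := by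
  refine ⟨fun k => ?_, fun x hx => ?_⟩
  · have h1 := H.1 (k + 1)
    have h2 : ContDiff ℝ ((k : ℕ∞) + 1) χ := by exact_mod_cast h1
    have h3 := (contDiff_succ_iff_deriv.1 h2).2.2
    exact contDiff_const.mul h3
  · have hd : HasDerivAt χ (_root_.deriv χ x) x := (Sm.diff H x).hasDerivAt
    have h0 : _root_.deriv χ x = 0 := by
      rcases le_total 0 x with hx0 | hx0
      · rw [abs_of_nonneg hx0] at hx
        have e : ∀ y ∈ Ici x, χ y = 0 := fun y hy => H.2 y ((hx.trans hy).trans (le_abs_self y))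
        have h1 : HasDerivWithinAt χ 0 (Ici x) x :=
          (hasDerivWithinAt_const x (Ici x) (0 : ℂ)).congr e (e x self_mem_Ici)
        exact (uniqueDiffOn_Ici x x self_mem_Ici).eq_deriv _ hd.hasDerivWithinAt h1
      · rw [abs_of_nonpos hx0] at hx
        have e : ∀ y ∈ Iic x, χ y = 0 := fun y hy => H.2 y (by
          have hy' : y ≤ x := hy
          exact (by linarith : h ≤ -y).trans (neg_le_abs y))
        have h1 : HasDerivWithinAt χ 0 (Iic x) x :=
          (hasDerivWithinAt_const x (Iic x) (0 : ℂ)).congr e (e x self_mem_Iic)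
        exact (uniqueDiffOn_Iic x x self_mem_Iic).eq_deriv _ hd.hasDerivWithinAt h1
    show Complex.I * _root_.deriv χ x = 0
    rw [h0, mul_zero]

theorem TT_deriv {h : ℝ} {χ : ℝ → ℂ} (H : Sm h χ) (v : ℝ) :
    Y23.TT (fun x => Complex.I * deriv χ x) (v * Complex.I) = v * Y23.TT χ (v * Complex.I) := by
  have hexp : ∀ x : ℝ, HasDerivAt (fun y : ℝ => Complex.exp (v * Complex.I * y))
      (v * Complex.I * Complex.exp (v * Complex.I * x)) x := by
    intro x
    have h1 : HasDerivAt (fun y : ℝ => (v : ℂ) * Complex.I * y) ((v : ℂ) * Complex.I * 1) x :=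
      (Complex.ofRealCLM.hasDerivAt (x := x)).const_mul _
    have h2 := h1.cexp
    rw [mul_one, mul_comm (Complex.exp _)] at h2
    exact h2
  have Hd := Sm.deriv H
  have i1 : Integrable ((fun x : ℝ => Complex.exp (v * Complex.I * x)) * deriv χ) := by
    have := (Sm.int_mul Hd (g := fun x : ℝ => -Complex.I * Complex.exp (v * Complex.I * x))
      (by fun_prop))
    refine this.congr (Eventually.of_forall fun x => ?_)
    show Complex.I * deriv χ x * (-Complex.I * Complex.exp (v * Complex.I * x)) =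
      Complex.exp (v * Complex.I * x) * deriv χ x
    linear_combination (-(deriv χ x) * Complex.exp (v * Complex.I * x)) * Complex.I_mul_I
  have i2 : Integrable ((fun x : ℝ => v * Complex.I * Complex.exp (v * Complex.I * x)) * χ) := by
    refine (Sm.int_mul H (g := fun x : ℝ => v * Complex.I * Complex.exp (v * Complex.I * x))
      (by fun_prop)).congr (Eventually.of_forall fun x => ?_)
    show χ x * _ = _ * χ x
    ring
  have i3 : Integrable ((fun x : ℝ => Complex.exp (v * Complex.I * x)) * χ) := by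
    refine (Sm.int_mul H (g := fun x : ℝ => Complex.exp (v * Complex.I * x))
      (by fun_prop)).congr (Eventually.of_forall fun x => ?_)
    show χ x * _ = _ * χ x
    ring
  have key := integral_mul_deriv_eq_deriv_mul_of_integrable (fun x _ => hexp x)
    (fun x _ => (Sm.diff H x).hasDerivAt) i1 i2 i3
  unfold Y23.TT
  calc ∫ x : ℝ, Complex.I * deriv χ x * Complex.exp (v * Complex.I * x)
      = ∫ x : ℝ, Complex.I * (Complex.exp (v * Complex.I * x) * deriv χ x) := by
        refine integral_congr_ae (Eventually.of_forall fun x => ?_)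
        show _ = _
        ring
    _ = Complex.I * ∫ x : ℝ, Complex.exp (v * Complex.I * x) * deriv χ x := integral_const_mul _ _
    _ = Complex.I * -∫ x : ℝ, v * Complex.I * Complex.exp (v * Complex.I * x) * χ x := by rw [key]
    _ = Complex.I * -∫ x : ℝ, v * Complex.I * (χ x * Complex.exp (v * Complex.I * x)) := by
        congr 2
        refine integral_congr_ae (Eventually.of_forall fun x => ?_)
        show _ = _
        ring
    _ = Complex.I * -(v * Complex.I * ∫ x : ℝ, χ x * Complex.exp (v * Complex.I * x)) := by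
        rw [integral_const_mul]
    _ = _ := by
        linear_combination (-(v : ℂ) * ∫ x : ℝ, χ x * Complex.exp (v * Complex.I * x)) * Complex.I_mul_I

/-- multiplication of the transform by a polynomial -/
theorem exists_mul {h : ℝ} {ψ : ℝ → ℂ} (H : Sm h ψ) (P : ℝ[X]) : ∃ χ : ℝ → ℂ, Sm h χ ∧
    ∀ v : ℝ, Y23.TT χ (v * Complex.I) = ((P.eval v : ℝ) : ℂ) * Y23.TT ψ (v * Complex.I) := by
  induction P using Polynomial.induction_on with
  | C a =>
    refine ⟨fun x => (a : ℂ) * ψ x, ⟨fun k => contDiff_const.mul (H.1 k), fun x hx => ?_⟩, fun v => ?_⟩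
    · show (a : ℂ) * ψ x = 0
      rw [H.2 x hx, mul_zero]
    · rw [Y23.TT_smul, Polynomial.eval_C]
  | add p q hp hq =>
    obtain ⟨χ1, h1, e1⟩ := hp
    obtain ⟨χ2, h2, e2⟩ := hq
    refine ⟨fun x => χ1 x + χ2 x, ⟨fun k => (h1.1 k).add (h2.1 k), fun x hx => ?_⟩, fun v => ?_⟩
    · show χ1 x + χ2 x = 0
      rw [h1.2 x hx, h2.2 x hx, add_zero]
    · have e3 : Y23.TT (fun x => χ1 x + χ2 x) (v * Complex.I) =
          Y23.TT χ1 (v * Complex.I) + Y23.TT χ2 (v * Complex.I) := by
        unfold Y23.TT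
        rw [← integral_add (Sm.int_mul h1 (by fun_prop)) (Sm.int_mul h2 (by fun_prop))]
        refine integral_congr_ae (Eventually.of_forall fun x => ?_)
        show _ = _
        ring
      rw [e3, e1, e2, Polynomial.eval_add]
      push_cast
      ring
  | monomial n a hn =>
    obtain ⟨χ, h1, e1⟩ := hn
    refine ⟨_, Sm.deriv h1, fun v => ?_⟩
    rw [TT_deriv h1, e1]
    simp only [Polynomial.eval_mul, Polynomial.eval_C, Polynomial.eval_pow, Polynomial.eval_X]
    push_cast
    ring

/-- smooth approximations of the unit mass -/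
theorem exists_bump {h σ : ℝ} (hσ : 0 < σ) (hσh : σ ≤ h) : ∃ ψ : ℝ → ℂ, Sm h ψ ∧
    ∀ v : ℝ, ‖Y23.TT ψ (v * Complex.I)‖ ≤ 1 ∧ ‖Y23.TT ψ (v * Complex.I) - 1‖ ≤ |v| * σ := by
  let b : ContDiffBump (0 : ℝ) := ⟨σ / 2, σ, by linarith, by linarith⟩
  set g : ℝ → ℝ := b.normed volume with hg
  have hgc : Continuous g := b.continuous_normed
  have hg0 : ∀ x, 0 ≤ g x := fun x => b.nonneg_normed x
  have hg1 : ∫ x, g x = 1 := b.integral_normed
  have hgs : ∀ x, σ ≤ |x| → g x = 0 := by
    intro x hx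
    have h1 : x ∉ Function.support g := by
      rw [hg, b.support_normed_eq]
      rw [mem_ball_zero_iff, Real.norm_eq_abs, not_lt]
      exact hx
    exact Function.notMem_support.1 h1
  have hS : Sm h fun x => (g x : ℂ) := by
    refine ⟨fun k => ?_, fun x hx => ?_⟩
    · have h1 : ContDiff ℝ k g := by
        have := b.contDiff_normed (μ := volume) (n := (k : ℕ∞))
        exact_mod_cast this
      exact Complex.ofRealCLM.contDiff.comp h1
    · show (g x : ℂ) = 0
      rw [hgs x (hσh.trans hx), Complex.ofReal_zero]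
  have hgi : Integrable g := b.integrable_normed
  refine ⟨fun x => (g x : ℂ), hS, fun v => ?_⟩
  have hn : ∀ x : ℝ, ‖Complex.exp (v * Complex.I * x)‖ = 1 := by
    intro x
    have e : (v : ℂ) * Complex.I * x = ((v * x : ℝ) : ℂ) * Complex.I := by push_cast; ring
    rw [e, Complex.norm_exp_ofReal_mul_I]
  constructor
  · unfold Y23.TT
    refine (norm_integral_le_integral_norm _).trans (le_of_eq ?_)
    rw [← hg1]
    refine integral_congr_ae (Eventually.of_forall fun x => ?_)
    show ‖(g x : ℂ) * Complex.exp (v * Complex.I * x)‖ = g x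
    rw [norm_mul, hn, mul_one, Complex.norm_real, Real.norm_of_nonneg (hg0 x)]
  · have e1 : Y23.TT (fun x => (g x : ℂ)) (v * Complex.I) - 1 =
        ∫ x : ℝ, (g x : ℂ) * (Complex.exp (v * Complex.I * x) - 1) := by
      have e2 : (1 : ℂ) = ∫ x : ℝ, (g x : ℂ) := by
        rw [integral_complex_ofReal, hg1, Complex.ofReal_one]
      have e4 : ∫ x : ℝ, (g x : ℂ) * (Complex.exp (v * Complex.I * x) - 1) =
          (∫ x : ℝ, (g x : ℂ) * Complex.exp (v * Complex.I * x)) - ∫ x : ℝ, (g x : ℂ) := by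
        rw [← integral_sub (f := fun x : ℝ => (g x : ℂ) * Complex.exp (v * Complex.I * x))
          (g := fun x : ℝ => (g x : ℂ)) (Sm.int_mul hS (by fun_prop)) hgi.ofReal]
        refine integral_congr_ae (Eventually.of_forall fun x => ?_)
        show _ = _
        ring
      rw [e4, ← e2]
      rfl
    rw [e1]
    calc ‖∫ x : ℝ, (g x : ℂ) * (Complex.exp (v * Complex.I * x) - 1)‖
        ≤ ∫ x : ℝ, g x * (|v| * σ) := by
          refine norm_integral_le_of_norm_le (hgi.mul_const _) (Eventually.of_forall fun x => ?_)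
          rw [norm_mul, Complex.norm_real, Real.norm_of_nonneg (hg0 x)]
          by_cases hx : σ ≤ |x|
          · rw [hgs x hx, zero_mul, zero_mul]
          · push Not at hx
            refine mul_le_mul_of_nonneg_left ?_ (hg0 x)
            have e3 : (v : ℂ) * Complex.I * x = Complex.I * ((v * x : ℝ) : ℂ) := by
              push_cast; ring
            rw [e3]
            refine Real.norm_exp_I_mul_ofReal_sub_one_le.trans ?_
            rw [Real.norm_eq_abs, abs_mul]
            exact mul_le_mul_of_nonneg_left hx.le (abs_nonneg _)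
      _ = |v| * σ := by rw [integral_mul_const, hg1, one_mul]

/-! ### the weight -/

/-- the weight -/
noncomputable def w (v : ℝ) : ℝ := ‖XX (v * Complex.I)‖ ^ 2

theorem w_cont : Continuous w := by
  unfold w
  have : Continuous XX := Y23.XX_diff.continuous
  fun_prop

theorem w_nonneg (v : ℝ) : 0 ≤ w v := sq_nonneg _

theorem w_dec : ∃ C : ℝ, ∀ v : ℝ, w v * (1 + v ^ 2) ≤ C * Real.exp (-(1 / 2 * |v|)) := by
  obtain ⟨C, hC, hb⟩ := Y23.Z.XX_decay (φ := 1 / 2) (by norm_num) (by
    have := Real.pi_gt_three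
    linarith)
  refine ⟨9 * C ^ 2, fun v => ?_⟩
  have h1 : w v ≤ C ^ 2 * Real.exp (-|v|) := by
    unfold w
    calc ‖XX (v * Complex.I)‖ ^ 2 ≤ (C * Real.exp (-(1 / 2 * |v|))) ^ 2 :=
          pow_le_pow_left₀ (norm_nonneg _) (hb v) 2
      _ = C ^ 2 * Real.exp (-|v|) := by
          rw [mul_pow, ← Real.exp_nat_mul]
          congr 2
          push_cast
          ring
  have h2 : 1 + v ^ 2 ≤ 9 * Real.exp (1 / 2 * |v|) := by
    have h3 := Real.quadratic_le_exp_of_nonneg (show 0 ≤ 1 / 2 * |v| by positivity)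
    have h4 : (1 / 2 * |v|) ^ 2 = v ^ 2 / 4 := by
      rw [mul_pow, sq_abs]
      ring
    rw [h4] at h3
    have h5 : 0 ≤ |v| := abs_nonneg v
    nlinarith [sq_nonneg v]
  calc w v * (1 + v ^ 2) ≤ C ^ 2 * Real.exp (-|v|) * (9 * Real.exp (1 / 2 * |v|)) :=
        mul_le_mul h1 h2 (by positivity) (by positivity)
    _ = 9 * C ^ 2 * (Real.exp (-|v|) * Real.exp (1 / 2 * |v|)) := by ring
    _ = _ := by
        rw [← Real.exp_add]
        congr 2
        ring

/-- integrability against polynomials -/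
theorem int_w (P : ℝ[X]) : Integrable fun v : ℝ => w v * (1 + v ^ 2) * P.eval v ^ 2 := by
  obtain ⟨C, hC⟩ := w_dec
  exact Poly.int_poly (w_cont.mul (by fun_prop)) (fun v => mul_nonneg (w_nonneg v) (by positivity))
    (by norm_num : (0:ℝ) < 1 / 2) hC P

/-- the zeros of `XX` are isolated -/
theorem exists_pt {T : ℝ → ℝ} (hT : Continuous T) (h0 : ∃ v, 0 < T v) : ∃ v, 0 < T v ∧ 0 < w v := by
  obtain ⟨v0, hv0⟩ := h0
  have h1 : ∀ᶠ z in 𝓝[≠] ((v0 : ℂ) * Complex.I), XX z ≠ 0 := by
    rcases (Y23.XX_an ((v0 : ℂ) * Complex.I)).eventually_eq_zero_or_eventually_ne_zero with h | h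
    · exact absurd (analyticOrderAt_eq_top.2 h) (Y23.XX_ne_top _)
    · exact h
  have h2 : Tendsto (fun v : ℝ => (v : ℂ) * Complex.I) (𝓝[≠] v0) (𝓝[≠] ((v0 : ℂ) * Complex.I)) := by
    refine tendsto_nhdsWithin_iff.2 ⟨?_, ?_⟩
    · have : Continuous fun v : ℝ => (v : ℂ) * Complex.I := by fun_prop
      exact (this.tendsto v0).mono_left nhdsWithin_le_nhds
    · filter_upwards [self_mem_nhdsWithin] with v hv
      intro hc
      apply hv
      have := mul_right_cancel₀ Complex.I_ne_zero hc
      exact_mod_cast this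
  have h3 : ∀ᶠ v in 𝓝[≠] v0, 0 < T v :=
    ((hT.tendsto v0).eventually (lt_mem_nhds hv0)).filter_mono nhdsWithin_le_nhds
  obtain ⟨v, hv1, hv2⟩ := ((h2.eventually h1).and h3).exists
  exact ⟨v, hv2, by
    unfold w
    have : 0 < ‖XX ((v : ℂ) * Complex.I)‖ := norm_pos_iff.2 hv1
    positivity⟩

/-- **detection by polynomials** -/
theorem det_poly (hpoly : S_Poly) {T : ℝ → ℝ} (hT : Continuous T) {B : ℝ}
    (hB : ∀ v, |T v| ≤ B * (1 + v ^ 2)) (h0 : ∃ v, 0 < T v) :
    ∃ P : ℝ[X], 0 < ∫ v : ℝ, w v * P.eval v ^ 2 * T v := by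
  obtain ⟨v1, hv1, hw1⟩ := exists_pt hT h0
  have hB0 : 0 ≤ B := by
    have := (abs_nonneg _).trans (hB 0)
    simpa using this
  -- an interval
  obtain ⟨δ, hδ, hball⟩ := Metric.eventually_nhds_iff.1
    ((hT.tendsto v1).eventually (lt_mem_nhds hv1))
  set g : ℝ → ℝ := fun v => max 0 (δ / 2 - |v - v1|) with hg
  have hgc : Continuous g := by fun_prop
  have hgs : HasCompactSupport g := by
    refine HasCompactSupport.intro (isCompact_closedBall v1 δ) fun x hx => ?_
    rw [Metric.mem_closedBall, Real.dist_eq, not_le] at hx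
    show max 0 (δ / 2 - |x - v1|) = 0
    exact max_eq_left (by linarith)
  have hgT : ∀ v, 0 ≤ w v * g v ^ 2 * T v := by
    intro v
    by_cases hv : |v - v1| < δ
    · exact mul_nonneg (mul_nonneg (w_nonneg v) (sq_nonneg _)) (hball (by rwa [Real.dist_eq])).le
    · have : g v = 0 := max_eq_left (by linarith)
      rw [this]
      simp
  have hcg : Continuous fun v => w v * g v ^ 2 * T v := (w_cont.mul (hgc.pow 2)).mul hT
  have hsg : HasCompactSupport fun v => w v * g v ^ 2 * T v := by
    refine HasCompactSupport.mul_right (HasCompactSupport.mul_left ?_)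
    exact hgs.comp_left (g := fun y : ℝ => y ^ 2) (by norm_num)
  have hpos : 0 < ∫ v, w v * g v ^ 2 * T v := by
    refine hcg.integral_pos_of_hasCompactSupport_nonneg_nonzero hsg hgT (x := v1) ?_
    have : g v1 = δ / 2 := by
      rw [hg]
      simp only [sub_self, abs_zero, sub_zero]
      exact max_eq_right (by linarith)
    rw [this]
    positivity
  obtain ⟨d, hd⟩ : ∃ d : ℝ, d = ∫ v, w v * g v ^ 2 * T v := ⟨_, rfl⟩
  rw [← hd] at hpos
  obtain ⟨ω, hω⟩ : ∃ ω : ℝ → ℝ, ∀ v, ω v = w v * (1 + v ^ 2) := ⟨_, fun _ => rfl⟩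
  have hωc : Continuous ω := by
    rw [show ω = fun v => w v * (1 + v ^ 2) from funext hω]
    exact w_cont.mul (by fun_prop)
  have hω0 : ∀ v, 0 ≤ ω v := fun v => by
    rw [hω]
    exact mul_nonneg (w_nonneg v) (by positivity)
  have iG : Integrable fun v => ω v * g v ^ 2 := by
    refine (hωc.mul (hgc.pow 2)).integrable_of_hasCompactSupport (HasCompactSupport.mul_left ?_)
    exact hgs.comp_left (g := fun y : ℝ => y ^ 2) (by norm_num)
  obtain ⟨G, hG⟩ : ∃ G : ℝ, G = ∫ v, ω v * g v ^ 2 := ⟨_, rfl⟩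
  have hG0 : 0 ≤ G := by
    rw [hG]
    exact integral_nonneg fun v => mul_nonneg (hω0 v) (sq_nonneg _)
  obtain ⟨C, hC⟩ := w_dec
  have hC : ∀ v, ω v ≤ C * Real.exp (-(1 / 2 * |v|)) := fun v => by
    rw [hω]
    exact hC v
  -- the parameters
  obtain ⟨η, hη⟩ : ∃ η : ℝ, η = d / (4 * (B + 1) * (G + 1)) := ⟨_, rfl⟩
  have hη0 : 0 < η := by
    rw [hη]
    positivity
  obtain ⟨ε, hε⟩ : ∃ ε : ℝ, ε = d / (4 * (B + 1) * (1 + 1 / η)) := ⟨_, rfl⟩
  have hε0 : 0 < ε := by
    rw [hε]
    positivity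
  obtain ⟨P, hP⟩ := hpoly ω C (1 / 2) hωc hω0 (by norm_num) hC g hgc hgs ε hε0
  refine ⟨P, ?_⟩
  have hPc : Continuous fun v : ℝ => P.eval v := P.continuous
  have iP : Integrable fun v : ℝ => ω v * P.eval v ^ 2 := by
    simp only [hω]
    exact int_w P
  have iPT : Integrable fun v : ℝ => w v * P.eval v ^ 2 * T v := by
    refine (iP.const_mul B).mono ((w_cont.mul (hPc.pow 2)).mul hT).aestronglyMeasurable
      (Eventually.of_forall fun v => ?_)
    rw [Real.norm_eq_abs, Real.norm_eq_abs, abs_mul,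
      abs_of_nonneg (mul_nonneg (w_nonneg v) (sq_nonneg _)),
      abs_of_nonneg (mul_nonneg hB0 (mul_nonneg (hω0 v) (sq_nonneg _)))]
    calc w v * P.eval v ^ 2 * |T v| ≤ w v * P.eval v ^ 2 * (B * (1 + v ^ 2)) :=
          mul_le_mul_of_nonneg_left (hB v) (mul_nonneg (w_nonneg v) (sq_nonneg _))
      _ = B * (ω v * P.eval v ^ 2) := by
          rw [hω]
          ring
  have iPg : Integrable fun v : ℝ => ω v * (P.eval v - g v) ^ 2 := by
    refine ((iP.add iG).const_mul 2).mono (hωc.mul ((hPc.sub hgc).pow 2)).aestronglyMeasurable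
      (Eventually.of_forall fun v => ?_)
    have h1 := hω0 v
    rw [Real.norm_of_nonneg (mul_nonneg h1 (sq_nonneg _)), Real.norm_of_nonneg (by
      show 0 ≤ 2 * (ω v * P.eval v ^ 2 + ω v * g v ^ 2)
      positivity)]
    show ω v * (P.eval v - g v) ^ 2 ≤ 2 * (ω v * P.eval v ^ 2 + ω v * g v ^ 2)
    nlinarith [mul_nonneg h1 (sq_nonneg (P.eval v + g v))]
  have hkey : ∫ v, (w v * g v ^ 2 * T v - B * ((1 + 1 / η) * (ω v * (P.eval v - g v) ^ 2) +
      η * (ω v * g v ^ 2))) ≤ ∫ v, w v * P.eval v ^ 2 * T v := by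
    refine integral_mono ((hcg.integrable_of_hasCompactSupport hsg).sub
      (((iPg.const_mul _).add (iG.const_mul _)).const_mul _)) iPT fun v => ?_
    show w v * g v ^ 2 * T v - B * ((1 + 1 / η) * (ω v * (P.eval v - g v) ^ 2) +
      η * (ω v * g v ^ 2)) ≤ w v * P.eval v ^ 2 * T v
    set p := P.eval v
    set q := g v
    have a1 : |p ^ 2 - q ^ 2| ≤ (1 + 1 / η) * (p - q) ^ 2 + η * q ^ 2 := by
      have a2 : p ^ 2 - q ^ 2 = (p - q) ^ 2 + 2 * (q * (p - q)) := by ring
      have a3 : |2 * (q * (p - q))| ≤ 1 / η * (p - q) ^ 2 + η * q ^ 2 := by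
        rw [abs_le]
        have a4 : 0 ≤ (η * q + (p - q)) ^ 2 / η := by positivity
        have a5 : 0 ≤ (η * q - (p - q)) ^ 2 / η := by positivity
        have a6 : (η * q + (p - q)) ^ 2 / η = η * q ^ 2 + 2 * (q * (p - q)) + 1 / η * (p - q) ^ 2 := by
          field_simp
          ring
        have a7 : (η * q - (p - q)) ^ 2 / η = η * q ^ 2 - 2 * (q * (p - q)) + 1 / η * (p - q) ^ 2 := by
          field_simp
          ring
        rw [a6] at a4
        rw [a7] at a5
        constructor <;> linarith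
      rw [a2]
      refine (abs_add_le _ _).trans ?_
      rw [abs_of_nonneg (sq_nonneg (p - q))]
      linarith
    have a8 : w v * (q ^ 2 - p ^ 2) * T v ≤
        B * ((1 + 1 / η) * (ω v * (p - q) ^ 2) + η * (ω v * q ^ 2)) := by
      calc w v * (q ^ 2 - p ^ 2) * T v ≤ |w v * (q ^ 2 - p ^ 2) * T v| := le_abs_self _
        _ = w v * |p ^ 2 - q ^ 2| * |T v| := by
            rw [abs_mul, abs_mul, abs_of_nonneg (w_nonneg v), abs_sub_comm]
        _ ≤ w v * ((1 + 1 / η) * (p - q) ^ 2 + η * q ^ 2) * (B * (1 + v ^ 2)) := by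
            refine mul_le_mul (mul_le_mul_of_nonneg_left a1 (w_nonneg v)) (hB v) (abs_nonneg _) ?_
            have := w_nonneg v
            positivity
        _ = _ := by
            rw [hω]
            ring
    linarith
  have j1 : Integrable fun v : ℝ => (1 + 1 / η) * (ω v * (P.eval v - g v) ^ 2) := iPg.const_mul _
  have j2 : Integrable fun v : ℝ => η * (ω v * g v ^ 2) := iG.const_mul _
  have j3 : Integrable fun v : ℝ => B * ((1 + 1 / η) * (ω v * (P.eval v - g v) ^ 2) +
      η * (ω v * g v ^ 2)) := (j1.add j2).const_mul B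
  have hkey2 : ∫ v, (w v * g v ^ 2 * T v - B * ((1 + 1 / η) * (ω v * (P.eval v - g v) ^ 2) +
      η * (ω v * g v ^ 2))) =
      d - B * ((1 + 1 / η) * (∫ v, ω v * (P.eval v - g v) ^ 2) + η * G) := by
    rw [integral_sub (hcg.integrable_of_hasCompactSupport hsg) j3, integral_const_mul,
      integral_add j1 j2, integral_const_mul, integral_const_mul, ← hd, ← hG]
  rw [hkey2] at hkey
  have b1 : B * ((1 + 1 / η) * ∫ v, ω v * (P.eval v - g v) ^ 2) ≤ d / 4 := by
    calc B * ((1 + 1 / η) * ∫ v, ω v * (P.eval v - g v) ^ 2)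
        ≤ (B + 1) * ((1 + 1 / η) * ε) := by
          refine mul_le_mul (by linarith) (mul_le_mul_of_nonneg_left hP (by positivity)) ?_
            (by positivity)
          refine mul_nonneg (by positivity) (integral_nonneg fun v => ?_)
          exact mul_nonneg (hω0 v) (sq_nonneg _)
      _ = d / 4 := by
          rw [hε]
          field_simp
  have b2 : B * (η * G) ≤ d / 4 := by
    calc B * (η * G) ≤ (B + 1) * (η * (G + 1)) := by
          refine mul_le_mul (by linarith) (mul_le_mul_of_nonneg_left (by linarith) hη0.le)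
            (by positivity) (by positivity)
      _ = d / 4 := by
          rw [hη]
          field_simp
  linarith

/-- **Det** -/
theorem det (hpoly : S_Poly) : S_Det := by
  intro h T hh hT ⟨B, hB⟩ h0
  obtain ⟨P, hP⟩ := det_poly hpoly hT hB h0
  have hB0 : 0 ≤ B := by
    have := (abs_nonneg _).trans (hB 0)
    simpa using this
  have hσ : ∀ n : ℕ, 0 < h / (n + 1) := fun n => by positivity
  have hσh : ∀ n : ℕ, h / (n + 1) ≤ h := fun n => div_le_self hh.le (by
    have : (0:ℝ) ≤ n := Nat.cast_nonneg n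
    linarith)
  choose ψ hψ hψb using fun n : ℕ => exists_bump (hσ n) (hσh n)
  choose χ hχ hχe using fun n : ℕ => exists_mul (hψ n) P
  have hPc : Continuous fun v : ℝ => P.eval v := P.continuous
  have iP : Integrable fun v : ℝ => w v * (1 + v ^ 2) * P.eval v ^ 2 := int_w P
  have heq : ∀ n : ℕ, ∀ v : ℝ, ‖XX (v * Complex.I) * Y23.TT (χ n) (v * Complex.I)‖ ^ 2 * T v =
      w v * P.eval v ^ 2 * ‖Y23.TT (ψ n) (v * Complex.I)‖ ^ 2 * T v := by
    intro n v
    rw [hχe, norm_mul, norm_mul, Complex.norm_real, Real.norm_eq_abs, mul_pow, mul_pow, sq_abs]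
    unfold w
    ring
  have hTTc : ∀ n : ℕ, Continuous fun v : ℝ => Y23.TT (ψ n) (v * Complex.I) := by
    intro n
    have hd : Integrable (ψ n) := by
      have := Sm.int_mul (hψ n) (g := fun _ => (1:ℂ)) continuous_const
      simpa using this
    unfold Y23.TT
    refine continuous_of_dominated (bound := fun x => ‖ψ n x‖) (fun v => ?_) (fun v => ?_) hd.norm
      (Eventually.of_forall fun x => by fun_prop)
    · exact ((Sm.cont (hψ n)).mul (by fun_prop)).aestronglyMeasurable
    · refine Eventually.of_forall fun x => ?_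
      have e : (v : ℂ) * Complex.I * x = ((v * x : ℝ) : ℂ) * Complex.I := by push_cast; ring
      rw [norm_mul, e, Complex.norm_exp_ofReal_mul_I, mul_one]
  have hlim : Tendsto (fun n : ℕ => ∫ v : ℝ, ‖XX (v * Complex.I) * Y23.TT (χ n) (v * Complex.I)‖ ^ 2 * T v)
      atTop (𝓝 (∫ v : ℝ, w v * P.eval v ^ 2 * T v)) := by
    simp only [heq]
    refine tendsto_integral_of_dominated_convergence
      (fun v => B * (w v * (1 + v ^ 2) * P.eval v ^ 2)) (fun n => ?_) (iP.const_mul B) (fun n => ?_) ?_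
    · exact (((w_cont.mul (hPc.pow 2)).mul ((hTTc n).norm.pow 2)).mul hT).aestronglyMeasurable
    · refine Eventually.of_forall fun v => ?_
      have h1 : ‖Y23.TT (ψ n) (v * Complex.I)‖ ^ 2 ≤ 1 := pow_le_one₀ (norm_nonneg _) (hψb n v).1
      have h2 : 0 ≤ w v * P.eval v ^ 2 := mul_nonneg (w_nonneg v) (sq_nonneg _)
      rw [Real.norm_eq_abs, abs_mul, abs_of_nonneg (mul_nonneg h2 (sq_nonneg _))]
      calc w v * P.eval v ^ 2 * ‖Y23.TT (ψ n) (v * Complex.I)‖ ^ 2 * |T v|
          ≤ w v * P.eval v ^ 2 * 1 * (B * (1 + v ^ 2)) :=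
            mul_le_mul (mul_le_mul_of_nonneg_left h1 h2) (hB v) (abs_nonneg _) (by positivity)
        _ = _ := by ring
    · refine Eventually.of_forall fun v => ?_
      have h1 : Tendsto (fun n : ℕ => Y23.TT (ψ n) (v * Complex.I)) atTop (𝓝 1) := by
        rw [tendsto_iff_norm_sub_tendsto_zero]
        refine squeeze_zero (fun n => norm_nonneg _) (fun n => (hψb n v).2) ?_
        have h2 : Tendsto (fun n : ℕ => h / ((n : ℝ) + 1)) atTop (𝓝 0) :=
          tendsto_const_nhds.div_atTop (tendsto_atTop_add_const_right _ _ tendsto_natCast_atTop_atTop)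
        simpa using h2.const_mul |v|
      have h2 : Tendsto (fun n : ℕ => ‖Y23.TT (ψ n) (v * Complex.I)‖ ^ 2) atTop (𝓝 1) := by
        simpa using (h1.norm).pow 2
      have h3 := (h2.const_mul (w v * P.eval v ^ 2)).mul_const (T v)
      rw [mul_one] at h3
      exact h3
  obtain ⟨n, hn⟩ := (hlim.eventually (lt_mem_nhds hP)).exists
  exact ⟨χ n, hχ n, hn⟩

end Pool.Agent.Q193.PR.Det
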