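import Pool.Agent.Q240.PR.Stm

/-!
# Polynomials are dense in `L²` for weights with exponential decay
-/

set_option autoImplicit false

namespace Pool.Agent.Q193.PR.Poly

open MeasureTheory Set Filter Topology ProbabilityTheory
open scoped ENNReal Polynomial
open Pool.Agent.Q240.PR

theorem mem_int {ρ : Measure ℝ} {r : ℝ}
    (hρ : ∀ t : ℝ, |t| < r → Integrable (fun x : ℝ => Real.exp (t * x)) ρ) {t : ℝ} (ht : |t| < r) :
    t ∈ interior (integrableExpSet id ρ) := by
  have h1 : Ioo (-r) r ⊆ integrableExpSet id ρ := fun s hs => hρ s (abs_lt.2 hs)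
  exact interior_maximal h1 isOpen_Ioo (abs_lt.1 ht)

/-- measures on the line with exponential moments are determined by their moments -/
theorem moments {μ ν : Measure ℝ} [IsFiniteMeasure μ] [IsFiniteMeasure ν] {r : ℝ} (hr : 0 < r)
    (hμ : ∀ t : ℝ, |t| < r → Integrable (fun x : ℝ => Real.exp (t * x)) μ)
    (hν : ∀ t : ℝ, |t| < r → Integrable (fun x : ℝ => Real.exp (t * x)) ν)
    (h : ∀ n : ℕ, ∫ x : ℝ, x ^ n ∂μ = ∫ x : ℝ, x ^ n ∂ν) : μ = ν := by
  have hD : ∀ {ρ : Measure ℝ}, (∀ t : ℝ, |t| < r → Integrable (fun x : ℝ => Real.exp (t * x)) ρ) →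
      DifferentiableOn ℂ (complexMGF id ρ) {z : ℂ | |z.re| < r} := fun hρ =>
    differentiableOn_complexMGF.mono fun z hz => mem_int hρ hz
  have hsb : Metric.ball (0 : ℂ) r ⊆ {z : ℂ | |z.re| < r} := fun z hz =>
    (Complex.abs_re_le_norm z).trans_lt (mem_ball_zero_iff.1 hz)
  have hop : IsOpen {z : ℂ | |z.re| < r} :=
    isOpen_lt (Complex.continuous_re.abs) continuous_const
  have hcoef : ∀ {ρ : Measure ℝ}, (∀ t : ℝ, |t| < r → Integrable (fun x : ℝ => Real.exp (t * x)) ρ) →
      ∀ n : ℕ, iteratedDeriv n (complexMGF id ρ) 0 = ((∫ x : ℝ, x ^ n ∂ρ : ℝ) : ℂ) := by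
    intro ρ hρ n
    rw [iteratedDeriv_complexMGF (by
      rw [Complex.zero_re]
      exact mem_int hρ (by rw [abs_zero]; exact hr)) n]
    rw [← integral_complex_ofReal]
    refine integral_congr_ae (Eventually.of_forall fun x => ?_)
    simp
  have hball : ∀ z ∈ Metric.ball (0 : ℂ) r, complexMGF id μ z = complexMGF id ν z := by
    intro z hz
    rw [← Complex.taylorSeries_eq_on_ball' hz ((hD hμ).mono hsb),
      ← Complex.taylorSeries_eq_on_ball' hz ((hD hν).mono hsb)]
    refine tsum_congr fun n => ?_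
    rw [hcoef hμ, hcoef hν, h n]
  have hpre : IsPreconnected {z : ℂ | |z.re| < r} := by
    have h1 : {z : ℂ | |z.re| < r} = Complex.reLm ⁻¹' Ioo (-r) r := by
      ext z
      simp [abs_lt]
    rw [h1]
    exact ((convex_Ioo (-r) r).linear_preimage Complex.reLm).isPreconnected
  have hEq := AnalyticOnNhd.eqOn_of_preconnected_of_eventuallyEq ((hD hμ).analyticOnNhd hop)
    ((hD hν).analyticOnNhd hop) hpre (z₀ := 0) (by simpa using hr)
    (by
      filter_upwards [Metric.ball_mem_nhds (0 : ℂ) hr] with z hz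
      exact hball z hz)
  refine Measure.ext_of_charFun (funext fun t => ?_)
  rw [← complexMGF_id_mul_I, ← complexMGF_id_mul_I]
  exact hEq (by simpa using hr)

/-- a square integrable function with vanishing moments is zero -/
theorem ortho {μ : Measure ℝ} {r : ℝ} (hr : 0 < r)
    (hμ : ∀ t : ℝ, |t| < r → Integrable (fun x : ℝ => Real.exp (t * x)) μ) {h : ℝ → ℝ}
    (hm : Measurable h) (h2 : MemLp h 2 μ) (h0 : ∀ n : ℕ, ∫ x : ℝ, x ^ n * h x ∂μ = 0) :
    h =ᵐ[μ] 0 := by
  have hint : 0 ∈ interior (integrableExpSet id μ) := mem_int hμ (by rw [abs_zero]; exact hr)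
  have e1 : ∀ t : ℝ, |t| < r / 2 → Integrable (fun x : ℝ => Real.exp (t * x) * h x) μ := by
    intro t ht
    have i1 : MemLp (fun x : ℝ => Real.exp (t * x)) 2 μ := by
      refine (memLp_two_iff_integrable_sq (by fun_prop)).2 ?_
      have := hμ (2 * t) (by rw [abs_mul, abs_two]; linarith)
      refine this.congr (Eventually.of_forall fun x => ?_)
      show Real.exp (2 * t * x) = Real.exp (t * x) ^ 2
      rw [← Real.exp_nat_mul]
      congr 1
      push_cast
      ring
    exact MemLp.integrable_mul i1 h2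
  have e2 : ∀ n : ℕ, Integrable (fun x : ℝ => x ^ n * h x) μ := by
    intro n
    have i1 : MemLp (fun x : ℝ => x ^ n) 2 μ := by
      refine (memLp_two_iff_integrable_sq (by fun_prop)).2 ?_
      have := integrable_pow_of_mem_interior_integrableExpSet hint (n * 2)
      refine this.congr (Eventually.of_forall fun x => ?_)
      show x ^ (n * 2) = (x ^ n) ^ 2
      rw [pow_mul]
    exact MemLp.integrable_mul i1 h2
  have i0 : Integrable h μ := by
    have := e2 0
    simpa using this
  have hneg : Integrable (fun x => -h x) μ := i0.neg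
  have f1 : IsFiniteMeasure (μ.withDensity fun x => ENNReal.ofReal (h x)) :=
    isFiniteMeasure_withDensity_ofReal i0.2
  have f2 : IsFiniteMeasure (μ.withDensity fun x => ENNReal.ofReal (-h x)) :=
    isFiniteMeasure_withDensity_ofReal hneg.2
  -- general facts
  have hI : ∀ k : ℝ → ℝ, Measurable k → (∀ x, |k x| ≤ |h x|) → ∀ p : ℝ → ℝ, Measurable p →
      Integrable (fun x => p x * h x) μ →
      Integrable p (μ.withDensity fun x => ENNReal.ofReal (k x)) := by
    intro k hk hkh p hp hph
    have := (integrable_withDensity_iff_integrable_smul (μ := μ) (f := fun x => (k x).toNNReal)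
      hk.real_toNNReal (g := p)).2 ?_
    · exact this
    · refine hph.mono (by
        simp only [NNReal.smul_def, Real.coe_toNNReal', smul_eq_mul]
        exact ((hk.max measurable_const).mul hp).aestronglyMeasurable)
        (Eventually.of_forall fun x => ?_)
      rw [NNReal.smul_def, smul_eq_mul, Real.coe_toNNReal', norm_mul, norm_mul, Real.norm_eq_abs,
        Real.norm_eq_abs, Real.norm_eq_abs, mul_comm]
      refine mul_le_mul_of_nonneg_left ?_ (abs_nonneg _)
      refine le_trans ?_ (hkh x)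
      rw [abs_of_nonneg (le_max_right _ _)]
      exact max_le (le_abs_self _) (abs_nonneg _)
  have hV : ∀ k : ℝ → ℝ, Measurable k → ∀ p : ℝ → ℝ,
      ∫ x, p x ∂(μ.withDensity fun x => ENNReal.ofReal (k x)) = ∫ x, max (k x) 0 * p x ∂μ := by
    intro k hk p
    have := integral_withDensity_eq_integral_smul (μ := μ) (f := fun x => (k x).toNNReal)
      hk.real_toNNReal p
    refine Eq.trans this ?_
    refine integral_congr_ae (Eventually.of_forall fun x => ?_)
    show (k x).toNNReal • p x = _
    rw [NNReal.smul_def, smul_eq_mul, Real.coe_toNNReal']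
  have key : (μ.withDensity fun x => ENNReal.ofReal (h x)) =
      μ.withDensity fun x => ENNReal.ofReal (-h x) := by
    refine moments (r := r / 2) (by linarith) (fun t ht => ?_) (fun t ht => ?_) fun n => ?_
    · exact hI h hm (fun x => le_rfl) _ (by fun_prop) (e1 t ht)
    · exact hI (fun x => -h x) hm.neg (fun x => by rw [abs_neg]) _ (by fun_prop) (e1 t ht)
    · rw [hV h hm, hV (fun x => -h x) hm.neg, ← sub_eq_zero, ← integral_sub]
      · refine Eq.trans ?_ (h0 n)
        refine integral_congr_ae (Eventually.of_forall fun x => ?_)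
        show max (h x) 0 * x ^ n - max (-h x) 0 * x ^ n = x ^ n * h x
        rcases le_total 0 (h x) with hx | hx
        · rw [max_eq_left hx, max_eq_right (by linarith)]
          ring
        · rw [max_eq_right hx, max_eq_left (by linarith)]
          ring
      · refine (e2 n).mono ((hm.max measurable_const).mul (by fun_prop)).aestronglyMeasurable
          (Eventually.of_forall fun x => ?_)
        rw [norm_mul, norm_mul, mul_comm]
        refine mul_le_mul_of_nonneg_left ?_ (norm_nonneg _)
        rw [Real.norm_eq_abs, Real.norm_eq_abs, abs_of_nonneg (le_max_right _ _)]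
        exact max_le (le_abs_self _) (abs_nonneg _)
      · refine (e2 n).mono ((hm.neg.max measurable_const).mul (by fun_prop)).aestronglyMeasurable
          (Eventually.of_forall fun x => ?_)
        rw [norm_mul, norm_mul, mul_comm]
        refine mul_le_mul_of_nonneg_left ?_ (norm_nonneg _)
        rw [Real.norm_eq_abs, Real.norm_eq_abs, abs_of_nonneg (le_max_right _ _)]
        exact max_le (neg_le_abs _) (abs_nonneg _)
  have hae := (withDensity_eq_iff (μ := μ) (f := fun x => ENNReal.ofReal (h x))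
    (g := fun x => ENNReal.ofReal (-h x)) hm.ennreal_ofReal.aemeasurable
    hm.neg.ennreal_ofReal.aemeasurable (by
      have := f1.measure_univ_lt_top
      rw [withDensity_apply _ MeasurableSet.univ, setLIntegral_univ] at this
      exact this.ne)).1 key
  filter_upwards [hae] with x hx
  show h x = 0
  rcases lt_trichotomy (h x) 0 with hx0 | hx0 | hx0
  · rw [ENNReal.ofReal_of_nonpos hx0.le] at hx
    have := ENNReal.ofReal_pos.2 (show 0 < -h x by linarith)
    rw [← hx] at this
    exact absurd this (lt_irrefl _)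
  · exact hx0
  · rw [ENNReal.ofReal_of_nonpos (show -h x ≤ 0 by linarith)] at hx
    have := ENNReal.ofReal_pos.2 hx0
    rw [hx] at this
    exact absurd this (lt_irrefl _)

theorem memLp_poly {μ : Measure ℝ} (hint : 0 ∈ interior (integrableExpSet id μ)) (P : ℝ[X]) :
    MemLp (fun x : ℝ => P.eval x) 2 μ := by
  have e : (fun x : ℝ => P.eval x) = fun x => ∑ i ∈ Finset.range (P.natDegree + 1), P.coeff i * x ^ i := by
    funext x
    rw [Polynomial.eval_eq_sum_range]
  rw [e]
  refine memLp_finsetSum _ fun i _ => ?_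
  have i1 : MemLp (fun x : ℝ => x ^ i) 2 μ := by
    refine (memLp_two_iff_integrable_sq (by fun_prop)).2 ?_
    have := integrable_pow_of_mem_interior_integrableExpSet hint (i * 2)
    refine this.congr (Eventually.of_forall fun x => ?_)
    show x ^ (i * 2) = (x ^ i) ^ 2
    rw [pow_mul]
  exact i1.const_mul _

/-- density of the polynomials in `L²(μ)` -/
theorem dense {μ : Measure ℝ} {r : ℝ} (hr : 0 < r)
    (hμ : ∀ t : ℝ, |t| < r → Integrable (fun x : ℝ => Real.exp (t * x)) μ) {g : ℝ → ℝ}
    (hg : MemLp g 2 μ) {ε : ℝ} (hε : 0 < ε) :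
    ∃ P : ℝ[X], ∫ x : ℝ, (P.eval x - g x) ^ 2 ∂μ ≤ ε := by
  have hint : 0 ∈ interior (integrableExpSet id μ) := mem_int hμ (by rw [abs_zero]; exact hr)
  let K : Submodule ℝ (Lp ℝ 2 μ) :=
    { carrier := {f | ∃ P : ℝ[X], f =ᵐ[μ] fun x => P.eval x}
      add_mem' := by
        rintro a b ⟨P, hP⟩ ⟨Q, hQ⟩
        refine ⟨P + Q, ?_⟩
        filter_upwards [hP, hQ, Lp.coeFn_add a b] with x h1 h2 h3
        rw [h3, Pi.add_apply, h1, h2, Polynomial.eval_add]
      zero_mem' := by
        refine ⟨0, ?_⟩
        filter_upwards [Lp.coeFn_zero ℝ 2 μ] with x h1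
        rw [h1]
        simp
      smul_mem' := by
        rintro c a ⟨P, hP⟩
        refine ⟨c • P, ?_⟩
        filter_upwards [hP, Lp.coeFn_smul c a] with x h1 h2
        rw [h2, Pi.smul_apply, h1, Polynomial.eval_smul] }
  have hK : K.topologicalClosure = ⊤ := by
    rw [Submodule.topologicalClosure_eq_top_iff, Submodule.eq_bot_iff]
    intro f hf
    have h0 : ∀ n : ℕ, ∫ x : ℝ, x ^ n * f x ∂μ = 0 := by
      intro n
      have hmem : MemLp (fun x : ℝ => x ^ n) 2 μ := by
        have := memLp_poly hint (Polynomial.X ^ n)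
        simpa using this
      have h1 : hmem.toLp _ ∈ K := by
        refine ⟨Polynomial.X ^ n, ?_⟩
        filter_upwards [hmem.coeFn_toLp] with x hx
        rw [hx]
        simp
      have h2 := (Submodule.mem_orthogonal K f).1 hf _ h1
      rw [L2.inner_def] at h2
      rw [← h2]
      refine integral_congr_ae ?_
      filter_upwards [hmem.coeFn_toLp] with x hx
      rw [hx]
      show x ^ n * f x = f x * x ^ n
      ring
    have h3 := ortho hr hμ (Lp.stronglyMeasurable f).measurable (Lp.memLp f) h0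
    exact Lp.eq_zero_iff_ae_eq_zero.2 h3
  have hmem : hg.toLp g ∈ closure (K : Set (Lp ℝ 2 μ)) := by
    rw [← Submodule.topologicalClosure_coe, hK]
    trivial
  obtain ⟨f, ⟨P, hP⟩, hfd⟩ := Metric.mem_closure_iff.1 hmem (Real.sqrt ε) (Real.sqrt_pos.2 hε)
  refine ⟨P, ?_⟩
  have h4 : ∫ x : ℝ, (P.eval x - g x) ^ 2 ∂μ = ‖f - hg.toLp g‖ ^ 2 := by
    rw [← real_inner_self_eq_norm_sq, L2.inner_def]
    refine integral_congr_ae ?_
    filter_upwards [hP, hg.coeFn_toLp, Lp.coeFn_sub f (hg.toLp g)] with x h1 h2 h3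
    rw [h3, Pi.sub_apply, h1, h2]
    show (P.eval x - g x) ^ 2 = (P.eval x - g x) * (P.eval x - g x)
    ring
  rw [h4]
  rw [dist_comm, dist_eq_norm] at hfd
  calc ‖f - hg.toLp g‖ ^ 2 ≤ Real.sqrt ε ^ 2 := pow_le_pow_left₀ (norm_nonneg _) hfd.le 2
    _ = ε := Real.sq_sqrt hε.le

/-! ### weights on the line -/

theorem int_exp {c : ℝ} (hc : 0 < c) : Integrable fun v : ℝ => Real.exp (-(c * |v|)) := by
  have h1 : Integrable (fun v : ℝ => (min 1 (c ^ 2 / 2))⁻¹ * (1 + v ^ 2)⁻¹) :=
    integrable_inv_one_add_sq.const_mul _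
  refine h1.mono (by fun_prop) (Eventually.of_forall fun v => ?_)
  have hm : 0 < min 1 (c ^ 2 / 2) := lt_min one_pos (by positivity)
  rw [Real.norm_of_nonneg (Real.exp_pos _).le, Real.norm_of_nonneg (by positivity), Real.exp_neg,
    ← mul_inv]
  refine inv_anti₀ (by positivity) ?_
  have h2 := Real.quadratic_le_exp_of_nonneg (show 0 ≤ c * |v| by positivity)
  have h3 : (c * |v|) ^ 2 = c ^ 2 * v ^ 2 := by rw [mul_pow, sq_abs]
  have h4 : min 1 (c ^ 2 / 2) * 1 ≤ 1 := by rw [mul_one]; exact min_le_left _ _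
  have h5 : min 1 (c ^ 2 / 2) * v ^ 2 ≤ c ^ 2 / 2 * v ^ 2 :=
    mul_le_mul_of_nonneg_right (min_le_right _ _) (sq_nonneg _)
  have h6 : 0 ≤ c * |v| := by positivity
  rw [mul_add]
  rw [h3] at h2
  linarith

/-- the measure with density `ω` -/
noncomputable def M (ω : ℝ → ℝ) : Measure ℝ := volume.withDensity fun v => ENNReal.ofReal (ω v)

theorem int_M {ω : ℝ → ℝ} (hω : Continuous ω) (h0 : ∀ v, 0 ≤ ω v) (g : ℝ → ℝ) :
    ∫ v, g v ∂(M ω) = ∫ v, ω v * g v := by
  have := integral_withDensity_eq_integral_smul (μ := (volume : Measure ℝ))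
    (f := fun x => (ω x).toNNReal) hω.measurable.real_toNNReal g
  refine Eq.trans this ?_
  refine integral_congr_ae (Eventually.of_forall fun x => ?_)
  show (ω x).toNNReal • g x = _
  rw [NNReal.smul_def, smul_eq_mul, Real.coe_toNNReal', max_eq_left (h0 x)]

theorem integrable_M {ω : ℝ → ℝ} (hω : Continuous ω) (h0 : ∀ v, 0 ≤ ω v) (g : ℝ → ℝ) :
    Integrable g (M ω) ↔ Integrable fun v => ω v * g v := by
  have := integrable_withDensity_iff_integrable_smul (μ := (volume : Measure ℝ))
    (f := fun x => (ω x).toNNReal) hω.measurable.real_toNNReal (g := g)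
  refine Iff.trans this ?_
  have e : (fun x => (ω x).toNNReal • g x) = fun x => ω x * g x := by
    funext x
    rw [NNReal.smul_def, smul_eq_mul, Real.coe_toNNReal', max_eq_left (h0 x)]
  rw [e]

theorem M_exp {ω : ℝ → ℝ} {C κ : ℝ} (hω : Continuous ω) (h0 : ∀ v, 0 ≤ ω v)
    (hb : ∀ v, ω v ≤ C * Real.exp (-(κ * |v|))) (t : ℝ) (ht : |t| < κ) :
    Integrable (fun x : ℝ => Real.exp (t * x)) (M ω) := by
  rw [integrable_M hω h0]
  refine ((int_exp (show 0 < κ - |t| by linarith)).const_mul C).mono (by fun_prop)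
    (Eventually.of_forall fun v => ?_)
  have hC : 0 ≤ C := by
    have := (h0 0).trans (hb 0)
    simpa using this
  rw [Real.norm_of_nonneg (mul_nonneg (h0 v) (Real.exp_pos _).le),
    Real.norm_of_nonneg (mul_nonneg hC (Real.exp_pos _).le)]
  calc ω v * Real.exp (t * v) ≤ C * Real.exp (-(κ * |v|)) * Real.exp (|t| * |v|) := by
        refine mul_le_mul (hb v) (Real.exp_le_exp.2 ?_) (Real.exp_pos _).le
          (mul_nonneg hC (Real.exp_pos _).le)
        rw [← abs_mul]
        exact le_abs_self _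
    _ = _ := by
        rw [mul_assoc, ← Real.exp_add]
        congr 2
        ring

/-- polynomials are integrable -/
theorem int_poly {ω : ℝ → ℝ} {C κ : ℝ} (hω : Continuous ω) (h0 : ∀ v, 0 ≤ ω v) (hκ : 0 < κ)
    (hb : ∀ v, ω v ≤ C * Real.exp (-(κ * |v|))) (P : ℝ[X]) :
    Integrable fun v : ℝ => ω v * P.eval v ^ 2 := by
  have hint : 0 ∈ interior (integrableExpSet id (M ω)) :=
    mem_int (M_exp hω h0 hb) (by rw [abs_zero]; exact hκ)
  exact (integrable_M hω h0 _).1 (memLp_poly hint P).integrable_sq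

/-- **polynomials are dense** -/
theorem poly : S_Poly := by
  intro ω C κ hω h0 hκ hb g hg hgc ε hε
  have hexp := M_exp hω h0 hb
  have hgm : MemLp g 2 (M ω) := by
    refine (memLp_two_iff_integrable_sq hg.aestronglyMeasurable).2 ?_
    rw [integrable_M hω h0]
    refine (hω.mul (hg.pow 2)).integrable_of_hasCompactSupport ?_
    refine HasCompactSupport.mul_left ?_
    exact hgc.comp_left (g := fun y : ℝ => y ^ 2) (by norm_num)
  obtain ⟨P, hP⟩ := dense hκ hexp hgm hε
  refine ⟨P, ?_⟩
  rwa [int_M hω h0] at hP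

end Pool.Agent.Q193.PR.Poly
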